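import Mathlib

/-!
# The misere domination game on paths and cycles

The file first defines the game on an arbitrary finite simple graph, then proves a closed formula for
the P-positions of the sums of runs of undominated vertices (the octal game 0.337 in misere play),
and finally transfers it to paths and cycles.
-/

set_option autoImplicit false

namespace Pool.Agent.Results.MP_56c280_lc.PathsCycles

/-! ### The game on a graph -/

section game

variable {V : Type*}

/-- The closed neighbourhood `N[v]`. -/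
def closedNbhd (G : SimpleGraph V) (v : V) : Set V := {u | u = v ∨ G.Adj v u}

/-- The set of vertices dominated by the set `S` of already chosen vertices, i.e. the union of the
closed neighbourhoods `N[v]`, `v ∈ S`. -/
def dominated (G : SimpleGraph V) (S : Set V) : Set V := {u | ∃ v ∈ S, u ∈ closedNbhd G v}

/-- Choosing `v` is legal when it dominates at least one vertex not yet dominated. -/
def Legal (G : SimpleGraph V) (S : Set V) (v : V) : Prop :=
  ¬ closedNbhd G v ⊆ dominated G S

theorem dominated_insert (G : SimpleGraph V) (S : Set V) (v : V) :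
    dominated G (insert v S) = closedNbhd G v ∪ dominated G S := by
  ext u
  simp [dominated]

theorem ncard_lt_of_legal [Finite V] (G : SimpleGraph V) (S : Set V) (v : V) (h : Legal G S v) :
    (dominated G (insert v S))ᶜ.ncard < (dominated G S)ᶜ.ncard := by
  apply Set.ncard_lt_ncard _ (Set.toFinite _)
  rw [dominated_insert]
  obtain ⟨u, hu, hu'⟩ := Set.not_subset.1 h
  refine ⟨Set.compl_subset_compl.2 Set.subset_union_right, fun hsub => ?_⟩
  exact hsub hu' (Or.inl hu)

/-- `MoverWins G S`: the player to move wins the misere domination game on `G` from the position in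
which `S` is the set of already chosen vertices.  A player with no legal move wins; otherwise the
player to move wins iff some legal move leads to a position in which the player to move (the
opponent) does not win. -/
def MoverWins [Finite V] (G : SimpleGraph V) (S : Set V) : Prop :=
  (∀ v, ¬ Legal G S v) ∨ ∃ v, ∃ _h : Legal G S v, ¬ MoverWins G (insert v S)
termination_by (dominated G S)ᶜ.ncard
decreasing_by exact ncard_lt_of_legal G S v _h

theorem moverWins_iff [Finite V] (G : SimpleGraph V) (S : Set V) :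
    MoverWins G S ↔ (∀ v, ¬ Legal G S v) ∨ ∃ v, Legal G S v ∧ ¬ MoverWins G (insert v S) := by
  rw [MoverWins]
  simp only [exists_prop]

end game

/-! ### Sums of heaps -/


/-- degree of a heap -/
def dg (m : ℕ) : ℕ := if m < 4 then m / 2 else m / 2 - 2

/-- threshold of a heap -/
def tau (m : ℕ) : ℕ :=
  if m < 8 then 0 else if m % 2 = 0 then m - 5 else if m = 9 then 3 else m - 8

/-- arithmetic form of the P-positions: `e` total number of tokens, `d` total degree, `t` maximal
threshold -/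
def PA (e d t : ℕ) : Prop :=
  (d < t ∧ e % 2 = 0 ∧ d % 2 = 1) ∨ (t ≤ d ∧ e % 2 = 0 ∧ d % 2 = 0 ∧ 2 ≤ d) ∨
    (t ≤ d ∧ e % 2 = 1 ∧ d = 0)

/-- options of a heap `m`: two heaps `a, b` (possibly zero) -/
def Opt (m a b : ℕ) : Prop :=
  (1 ≤ m ∧ a + b + 1 = m ∧ (a = 0 ∨ b = 0)) ∨ (2 ≤ m ∧ a + b + 2 = m ∧ (a = 0 ∨ b = 0)) ∨
    (3 ≤ m ∧ a + b + 3 = m)

/-- total degree -/
def dS (X : Multiset ℕ) : ℕ := (X.map dg).sum

/-- maximal threshold -/
def tS (X : Multiset ℕ) : ℕ := (X.map tau).sup

/-- P-positions of sums of heaps -/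
def PP (X : Multiset ℕ) : Prop := PA X.sum (dS X) (tS X)

@[simp] lemma dS_cons (m : ℕ) (X : Multiset ℕ) : dS (m ::ₘ X) = dg m + dS X := by simp [dS]
@[simp] lemma tS_cons (m : ℕ) (X : Multiset ℕ) : tS (m ::ₘ X) = max (tau m) (tS X) := by simp [tS]
@[simp] lemma dS_zero : dS 0 = 0 := rfl
@[simp] lemma tS_zero : tS 0 = 0 := rfl

lemma tau_cases (m : ℕ) : (m < 8 ∧ tau m = 0) ∨ (8 ≤ m ∧ m % 2 = 0 ∧ tau m = m - 5) ∨
    (m = 9 ∧ tau m = 3) ∨ (11 ≤ m ∧ m % 2 = 1 ∧ tau m = m - 8) := by
  unfold tau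
  split_ifs <;> omega

lemma dg_cases (m : ℕ) : (m < 4 ∧ dg m = m / 2) ∨ (4 ≤ m ∧ dg m = m / 2 - 2) := by
  unfold dg
  split_ifs <;> omega

/-- invariant: thresholds are zero or odd and at least three, and bounded by the degree -/
lemma tS_inv (X : Multiset ℕ) : tS X = 0 ∨ (tS X % 2 = 1 ∧ 3 ≤ tS X ∧ tS X + 1 ≤ 2 * dS X) := by
  induction X using Multiset.induction with
  | empty => left; rfl
  | cons m X ih =>
    rw [tS_cons, dS_cons]
    rcases tau_cases m with h | h | h | h <;> rcases dg_cases m with h' | h' <;>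
      rcases max_cases (tau m) (tS X) with h2 | h2 <;> omega

lemma max_le_iff' (a b : ℕ) : (a ≤ b ∧ max a b = b) ∨ (b < a ∧ max a b = a) := by
  rcases le_or_gt a b with h | h
  · left; exact ⟨h, max_eq_right h⟩
  · right; exact ⟨h, max_eq_left h.le⟩

/-- arithmetic core of (i), single-heap options -/
lemma core_i_one (m a e s t : ℕ) (ht : t = 0 ∨ (t % 2 = 1 ∧ 3 ≤ t ∧ t + 1 ≤ 2 * s))
    (hopt : a + 1 = m ∨ a + 2 = m) (hP : PA (m + e) (dg m + s) (max (tau m) t)) :
    ¬ PA (a + e) (dg a + s) (max (tau a) t) := by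
  unfold PA at *
  rcases hopt with hopt | hopt
  · rcases tau_cases m with h | h | h | h <;> rcases dg_cases m with h' | h' <;>
      rcases tau_cases a with h1 | h1 | h1 | h1 <;> rcases dg_cases a with h1' | h1' <;> omega
  · rcases tau_cases m with h | h | h | h <;> rcases dg_cases m with h' | h' <;>
      rcases tau_cases a with h1 | h1 | h1 | h1 <;> rcases dg_cases a with h1' | h1' <;> omega

lemma dg_eq_zero {a : ℕ} (h : dg a = 0) : a = 0 ∨ a = 1 ∨ a = 4 ∨ a = 5 := by
  rcases dg_cases a with h' | h' <;> omega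

/-- arithmetic core of (i), splits -/
lemma core_i_two (m a b e s t : ℕ) (ht : t = 0 ∨ (t % 2 = 1 ∧ 3 ≤ t ∧ t + 1 ≤ 2 * s))
    (hopt : a + b + 3 = m) (hP : PA (m + e) (dg m + s) (max (tau m) t)) :
    ¬ PA (a + (b + e)) (dg a + (dg b + s)) (max (tau a) (max (tau b) t)) := by
  intro hP'
  have hcase : (dg a = 0 ∧ dg b = 0 ∧ s = 0) ∨ (dg m = 0 ∧ s = 0) := by
    unfold PA at hP hP'
    rcases hP with hP | hP | hP <;> rcases hP' with hP' | hP' | hP' <;> omega
  rcases hcase with ⟨ha, hb, hs⟩ | ⟨hm, hs⟩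
  · have ht0 : t = 0 := by omega
    subst hs ht0
    unfold PA at hP hP'
    rcases dg_eq_zero ha with rfl | rfl | rfl | rfl <;> rcases dg_eq_zero hb with rfl | rfl | rfl | rfl <;>
      subst hopt <;> simp [dg, tau] at hP hP' <;> omega
  · have ht0 : t = 0 := by omega
    subst hs ht0
    unfold PA at hP hP'
    rcases dg_eq_zero hm with rfl | rfl | rfl | rfl
    · omega
    · omega
    · have : a = 0 ∨ a = 1 := by omega
      rcases this with rfl | rfl
      · have : b = 1 := by omega
        subst this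
        simp [dg, tau] at hP hP'
        omega
      · have : b = 0 := by omega
        subst this
        simp [dg, tau] at hP hP'
        omega
    · have : a = 0 ∨ a = 1 ∨ a = 2 := by omega
      rcases this with rfl | rfl | rfl
      · have : b = 2 := by omega
        subst this
        simp [dg, tau] at hP hP'
      · have : b = 1 := by omega
        subst this
        simp [dg, tau] at hP hP'
        omega
      · have : b = 0 := by omega
        subst this
        simp [dg, tau] at hP hP'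

lemma not_PP_opt (m a b : ℕ) (Y : Multiset ℕ) (hopt : Opt m a b) (hP : PP (m ::ₘ Y)) :
    ¬ PP (a ::ₘ b ::ₘ Y) := by
  have hinv := tS_inv Y
  unfold PP at *
  simp only [Multiset.sum_cons, dS_cons, tS_cons] at *
  have h0 : dg 0 = 0 := rfl
  have h0' : tau 0 = 0 := rfl
  rcases hopt with ⟨_, h, h2⟩ | ⟨_, h, h2⟩ | ⟨_, h⟩
  · rcases h2 with rfl | rfl
    · have := core_i_one m b Y.sum (dS Y) (tS Y) hinv (by omega) hP
      simpa [h0, h0'] using this
    · have := core_i_one m a Y.sum (dS Y) (tS Y) hinv (by omega) hP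
      simpa [h0, h0'] using this
  · rcases h2 with rfl | rfl
    · have := core_i_one m b Y.sum (dS Y) (tS Y) hinv (by omega) hP
      simpa [h0, h0'] using this
    · have := core_i_one m a Y.sum (dS Y) (tS Y) hinv (by omega) hP
      simpa [h0, h0'] using this
  · exact core_i_two m a b Y.sum (dS Y) (tS Y) hinv h hP

/-! existence of a winning move -/

lemma ex_tau (X : Multiset ℕ) (h : 0 < tS X) : ∃ M Y, X = M ::ₘ Y ∧ tau M = tS X := by
  induction X using Multiset.induction with
  | empty => simp at h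
  | cons m X ih =>
    rw [tS_cons] at h ⊢
    rcases max_cases (tau m) (tS X) with h2 | h2
    · exact ⟨m, X, rfl, h2.1.symm⟩
    · obtain ⟨M, Y, rfl, hM⟩ := ih (by omega)
      exact ⟨M, m ::ₘ Y, Multiset.cons_swap _ _ _, by omega⟩

lemma ex_dg (X : Multiset ℕ) (h : 0 < dS X) : ∃ M Y, X = M ::ₘ Y ∧ 0 < dg M := by
  induction X using Multiset.induction with
  | empty => simp at h
  | cons m X ih =>
    rw [dS_cons] at h
    by_cases hm : 0 < dg m
    · exact ⟨m, X, rfl, hm⟩
    · obtain ⟨M, Y, rfl, hM⟩ := ih (by omega)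
      exact ⟨M, m ::ₘ Y, Multiset.cons_swap _ _ _, hM⟩

lemma ex_odd (X : Multiset ℕ) (h : X.sum % 2 = 1) : ∃ M Y, X = M ::ₘ Y ∧ M % 2 = 1 := by
  induction X using Multiset.induction with
  | empty => simp at h
  | cons m X ih =>
    rw [Multiset.sum_cons] at h
    by_cases hm : m % 2 = 1
    · exact ⟨m, X, rfl, hm⟩
    · obtain ⟨M, Y, rfl, hM⟩ := ih (by omega)
      exact ⟨M, m ::ₘ Y, Multiset.cons_swap _ _ _, hM⟩

lemma ex_pos (X : Multiset ℕ) (h : 0 < X.sum) : ∃ M Y, X = M ::ₘ Y ∧ 0 < M := by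
  induction X using Multiset.induction with
  | empty => simp at h
  | cons m X ih =>
    rw [Multiset.sum_cons] at h
    by_cases hm : 0 < m
    · exact ⟨m, X, rfl, hm⟩
    · obtain ⟨M, Y, rfl, hM⟩ := ih (by omega)
      exact ⟨M, m ::ₘ Y, Multiset.cons_swap _ _ _, hM⟩

/-- there is an option (in normal form) which is a P-position -/
def Win (X : Multiset ℕ) : Prop := ∃ m a b Y, X = m ::ₘ Y ∧ Opt m a b ∧ PP (a ::ₘ b ::ₘ Y)

lemma win_one (m : ℕ) (Y : Multiset ℕ) (hm : 1 ≤ m)
    (h : PA ((m - 1) + Y.sum) (dg (m - 1) + dS Y) (max (tau (m - 1)) (tS Y))) : Win (m ::ₘ Y) := by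
  refine ⟨m, m - 1, 0, Y, rfl, Or.inl ⟨hm, by omega, Or.inr rfl⟩, ?_⟩
  unfold PP
  simp only [Multiset.sum_cons, dS_cons, tS_cons]
  have h0 : dg 0 = 0 := rfl
  have h0' : tau 0 = 0 := rfl
  simpa [h0, h0'] using h

lemma win_two (m : ℕ) (Y : Multiset ℕ) (hm : 2 ≤ m)
    (h : PA ((m - 2) + Y.sum) (dg (m - 2) + dS Y) (max (tau (m - 2)) (tS Y))) : Win (m ::ₘ Y) := by
  refine ⟨m, m - 2, 0, Y, rfl, Or.inr (Or.inl ⟨hm, by omega, Or.inr rfl⟩), ?_⟩
  unfold PP
  simp only [Multiset.sum_cons, dS_cons, tS_cons]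
  have h0 : dg 0 = 0 := rfl
  have h0' : tau 0 = 0 := rfl
  simpa [h0, h0'] using h

lemma win_three (m a b : ℕ) (Y : Multiset ℕ) (hm : a + b + 3 = m)
    (h : PA (a + (b + Y.sum)) (dg a + (dg b + dS Y)) (max (tau a) (max (tau b) (tS Y)))) :
    Win (m ::ₘ Y) := by
  refine ⟨m, a, b, Y, rfl, Or.inr (Or.inr ⟨by omega, hm⟩), ?_⟩
  unfold PP
  simp only [Multiset.sum_cons, dS_cons, tS_cons]
  exact h

lemma win_three' (m : ℕ) (Y : Multiset ℕ) (hm : 3 ≤ m)
    (h : PA ((m - 3) + Y.sum) (dg (m - 3) + dS Y) (max (tau (m - 3)) (tS Y))) :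
    Win (m ::ₘ Y) := by
  apply win_three m 0 (m - 3) Y (by omega)
  have h0 : dg 0 = 0 := rfl
  have h0' : tau 0 = 0 := rfl
  simpa [h0, h0'] using h

/-- all thresholds zero -/
lemma win_tau_zero (X : Multiset ℕ) (ht : tS X = 0) (hpos : 0 < X.sum) (hP : ¬ PP X) : Win X := by
  unfold PP PA at hP
  rw [ht] at hP
  by_cases he : X.sum % 2 = 0
  · by_cases hd : dS X = 0
    · obtain ⟨m, Y, rfl, hm⟩ := ex_pos X hpos
      rw [dS_cons] at hd
      rw [tS_cons] at ht
      rw [Multiset.sum_cons] at he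
      have hmm := dg_eq_zero (show dg m = 0 by omega)
      have ht0 : tS Y = 0 := by
        have := le_max_right (tau m) (tS Y)
        omega
      have hd0 : dS Y = 0 := by omega
      rcases hmm with rfl | rfl | rfl | rfl
      · omega
      · apply win_one _ _ (by norm_num)
        rw [ht0, hd0]
        have e1 : dg (1 - 1) = 0 := rfl
        have e2 : tau (1 - 1) = 0 := rfl
        unfold PA
        omega
      · apply win_three' _ _ (by norm_num)
        rw [ht0, hd0]
        have e1 : dg (4 - 3) = 0 := rfl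
        have e2 : tau (4 - 3) = 0 := rfl
        unfold PA
        omega
      · apply win_one _ _ (by norm_num)
        rw [ht0, hd0]
        have e1 : dg (5 - 1) = 0 := rfl
        have e2 : tau (5 - 1) = 0 := rfl
        unfold PA
        omega
    · -- d odd
      obtain ⟨m, Y, rfl, hm⟩ := ex_dg X (by omega)
      rw [dS_cons] at hd hP
      rw [tS_cons] at ht
      rw [Multiset.sum_cons] at he hP
      have ht0 : tS Y = 0 := by
        have := le_max_right (tau m) (tS Y)
        omega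
      have htm : tau m = 0 := by
        have := le_max_left (tau m) (tS Y)
        omega
      have hm8 : m < 8 := by
        rcases tau_cases m with h | h | h | h <;> omega
      by_cases hd3 : 3 ≤ dg m + dS Y
      · apply win_two
        · rcases dg_cases m with h' | h' <;> omega
        · rw [ht0]
          unfold PA
          rcases dg_cases m with h' | h' <;> rcases dg_cases (m - 2) with h1' | h1' <;>
            rcases tau_cases (m - 2) with h1 | h1 | h1 | h1 <;> omega
      · have hmv : m = 2 ∨ m = 3 ∨ m = 6 ∨ m = 7 := by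
          rcases dg_cases m with h' | h' <;> omega
        rcases hmv with rfl | rfl | rfl | rfl
        · have e0 : dg 2 = 1 := rfl
          apply win_one _ _ (by norm_num)
          rw [ht0]
          have e1 : dg (2 - 1) = 0 := rfl
          have e2 : tau (2 - 1) = 0 := rfl
          unfold PA
          omega
        · have e0 : dg 3 = 1 := rfl
          apply win_three' _ _ (by norm_num)
          rw [ht0]
          have e1 : dg (3 - 3) = 0 := rfl
          have e2 : tau (3 - 3) = 0 := rfl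
          unfold PA
          omega
        · have e0 : dg 6 = 1 := rfl
          apply win_one _ _ (by norm_num)
          rw [ht0]
          have e1 : dg (6 - 1) = 0 := rfl
          have e2 : tau (6 - 1) = 0 := rfl
          unfold PA
          omega
        · have e0 : dg 7 = 1 := rfl
          apply win_three' _ _ (by norm_num)
          rw [ht0]
          have e1 : dg (7 - 3) = 0 := rfl
          have e2 : tau (7 - 3) = 0 := rfl
          unfold PA
          omega
  · -- odd
    by_cases hd : dS X % 2 = 0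
    · obtain ⟨m, Y, rfl, hm⟩ := ex_odd X (by omega)
      rw [dS_cons] at hd hP
      rw [tS_cons] at ht
      rw [Multiset.sum_cons] at he hP
      have ht0 : tS Y = 0 := by
        have := le_max_right (tau m) (tS Y)
        omega
      have htm : tau m = 0 := by
        have := le_max_left (tau m) (tS Y)
        omega
      have hm8 : m < 8 := by
        rcases tau_cases m with h | h | h | h <;> omega
      apply win_one _ _ (by omega)
      rw [ht0]
      unfold PA
      rcases dg_cases m with h' | h' <;> rcases dg_cases (m - 1) with h1' | h1' <;>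
            rcases tau_cases (m - 1) with h1 | h1 | h1 | h1 <;> omega
    · obtain ⟨m, Y, rfl, hm⟩ := ex_dg X (by omega)
      rw [dS_cons] at hd hP
      rw [tS_cons] at ht
      rw [Multiset.sum_cons] at he hP
      have ht0 : tS Y = 0 := by
        have := le_max_right (tau m) (tS Y)
        omega
      have htm : tau m = 0 := by
        have := le_max_left (tau m) (tS Y)
        omega
      have hm8 : m < 8 := by
        rcases tau_cases m with h | h | h | h <;> omega
      by_cases hd3 : 3 ≤ dg m + dS Y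
      · by_cases hmo : m % 2 = 0
        · apply win_one
          · rcases dg_cases m with h' | h' <;> omega
          · rw [ht0]
            unfold PA
            rcases dg_cases m with h' | h' <;> rcases dg_cases (m - 1) with h1' | h1' <;>
              rcases tau_cases (m - 1) with h1 | h1 | h1 | h1 <;> omega
        · apply win_three'
          · rcases dg_cases m with h' | h' <;> omega
          · rw [ht0]
            unfold PA
            rcases dg_cases m with h' | h' <;> rcases dg_cases (m - 3) with h1' | h1' <;>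
              rcases tau_cases (m - 3) with h1 | h1 | h1 | h1 <;> omega
      · apply win_two
        · rcases dg_cases m with h' | h' <;> omega
        · rw [ht0]
          unfold PA
          rcases dg_cases m with h' | h' <;> rcases dg_cases (m - 2) with h1' | h1' <;>
            rcases tau_cases (m - 2) with h1 | h1 | h1 | h1 <;> omega

lemma PA_T {e d t1 t2 : ℕ} (h : d < t1 ∨ d < t2) (he : e % 2 = 0) (hd : d % 2 = 1) :
    PA e d (max t1 t2) := by
  left
  exact ⟨lt_max_iff.2 h, he, hd⟩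

lemma PA_N {e d t1 t2 : ℕ} (h1 : t1 ≤ d) (h2 : t2 ≤ d) (he : e % 2 = 0) (hd : d % 2 = 0)
    (h : 2 ≤ d) : PA e d (max t1 t2) := by
  right; left
  exact ⟨max_le h1 h2, he, hd, h⟩

lemma PA_O {e d t1 t2 : ℕ} (h1 : t1 ≤ d) (h2 : t2 ≤ d) (he : e % 2 = 1) (hd : d = 0) :
    PA e d (max t1 t2) := by
  right; right
  exact ⟨max_le h1 h2, he, hd⟩

lemma tau_even {m : ℕ} (h : 8 ≤ m) (h2 : m % 2 = 0) : tau m = m - 5 := by
  rcases tau_cases m with h | h | h | h <;> omega

lemma tau_odd {m : ℕ} (h : 11 ≤ m) (h2 : m % 2 = 1) : tau m = m - 8 := by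
  rcases tau_cases m with h | h | h | h <;> omega

lemma tau_small {m : ℕ} (h : m < 8) : tau m = 0 := by
  rcases tau_cases m with h | h | h | h <;> omega

lemma dg_big {m : ℕ} (h : 4 ≤ m) : dg m = m / 2 - 2 := by
  rcases dg_cases m with h | h <;> omega

lemma dg_small {m : ℕ} (h : m < 4) : dg m = m / 2 := by
  rcases dg_cases m with h | h <;> omega

lemma tau_pred_two_le (m : ℕ) : tau (m - 2) ≤ tau m := by
  rcases tau_cases m with h | h | h | h
  · rw [tau_small (m := m - 2) (by omega)]; omega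
  · by_cases h8 : m = 8
    · subst h8; decide
    · rw [tau_even (m := m - 2) (by omega) (by omega)]; omega
  · obtain ⟨rfl, _⟩ := h; decide
  · by_cases h8 : m = 11
    · subst h8; decide
    · rw [tau_odd (m := m - 2) (by omega) (by omega)]; omega

/-- non-T, even, `d` odd -/
lemma win_pos_A (M : ℕ) (R : Multiset ℕ) (hMt : tS R ≤ tau M)
    (hinv : tS R = 0 ∨ (tS R % 2 = 1 ∧ 3 ≤ tS R ∧ tS R + 1 ≤ 2 * dS R))
    (hMc : (M = 8 ∧ tau M = 3 ∧ dg M = 2) ∨ (M = 9 ∧ tau M = 3 ∧ dg M = 2) ∨
      (M = 11 ∧ tau M = 3 ∧ dg M = 3) ∨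
      (10 ≤ M ∧ M % 2 = 0 ∧ tau M = M - 5 ∧ dg M = M / 2 - 2) ∨
      (13 ≤ M ∧ M % 2 = 1 ∧ tau M = M - 8 ∧ dg M = M / 2 - 2))
    (hd : tau M ≤ dg M + dS R) (he : (M + R.sum) % 2 = 0) (hodd : (dg M + dS R) % 2 = 1) :
    Win (M ::ₘ R) := by
  have hM8 : 8 ≤ M := by omega
  have hdM : dg M = M / 2 - 2 := dg_big (by omega)
  have hdM2 : dg (M - 2) = (M - 2) / 2 - 2 := dg_big (by omega)
  have hdd : dg (M - 2) + dS R = dg M + dS R - 1 := by omega
  have hd3 : 3 ≤ dg M + dS R := by omega
  have htt := tau_pred_two_le M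
  by_cases hdt : tau M < dg M + dS R
  · exact win_two _ _ (by omega) (PA_N (by omega) (by omega) (by omega) (by omega) (by omega))
  · have heq : dg M + dS R = tau M := by omega
    by_cases h11 : M = 11
    · subst h11
      have h3 : tau 11 = 3 := rfl
      have h4 : dg 11 = 3 := rfl
      have e1 : dg 4 = 0 := rfl
      have e2 : tau 4 = 0 := rfl
      exact win_three 11 4 4 _ (by omega) (PA_O (by omega) (max_le (by omega) (by omega)) (by omega)
        (by omega))
    · have ht2 : tau (M - 2) + 1 ≤ tau M := by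
        rcases hMc with h | h | h | h | h
        · obtain ⟨rfl, h⟩ := h; decide
        · obtain ⟨rfl, h⟩ := h; decide
        · omega
        · by_cases h8 : M = 10
          · subst h8; decide
          · rw [tau_even (m := M - 2) (by omega) (by omega)]; omega
        · rw [tau_odd (m := M - 2) (by omega) (by omega)]; omega
      have ht3 : tS R + 1 ≤ tau M := by
        rcases hinv with h | h
        · omega
        · rcases hMc with h' | h' | h' | h' | h' <;> omega
      exact win_two _ _ (by omega) (PA_N (by omega) (by omega) (by omega) (by omega) (by omega))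

/-- non-T, odd total, even degree -/
lemma win_pos_B (m : ℕ) (Y : Multiset ℕ) (hm : m % 2 = 1)
    (hinv : tS Y = 0 ∨ (tS Y % 2 = 1 ∧ 3 ≤ tS Y ∧ tS Y + 1 ≤ 2 * dS Y))
    (hnon : max (tau m) (tS Y) ≤ dg m + dS Y) (he : (m + Y.sum) % 2 = 1)
    (hev : (dg m + dS Y) % 2 = 0) (hd2 : 2 ≤ dg m + dS Y) :
    Win (m ::ₘ Y) := by
  have h1 : tau m ≤ dg m + dS Y := (le_max_left _ _).trans hnon
  have h2 : tS Y ≤ dg m + dS Y := (le_max_right _ _).trans hnon
  have hdm : dg (m - 1) = dg m := by
    rcases dg_cases m with h | h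
    · rw [dg_small (m := m - 1) (by omega)]; omega
    · rw [dg_big (m := m - 1) (by omega)]; omega
  by_cases hbig : tau (m - 1) ≤ dg m + dS Y
  · exact win_one _ _ (by omega) (PA_N (by omega) (by omega) (by omega) (by omega) (by omega))
  · have hm11 : 11 ≤ m := by
      by_contra hcon
      have : m = 1 ∨ m = 3 ∨ m = 5 ∨ m = 7 ∨ m = 9 := by omega
      rcases this with rfl | rfl | rfl | rfl | rfl
      · exact hbig (by have : tau (1 - 1) = 0 := rfl; omega)
      · exact hbig (by have : tau (3 - 1) = 0 := rfl; omega)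
      · exact hbig (by have : tau (5 - 1) = 0 := rfl; omega)
      · exact hbig (by have : tau (7 - 1) = 0 := rfl; omega)
      · have e1 : tau (9 - 1) = 3 := rfl
        have e2 : tau 9 = 3 := rfl
        omega
    have e1 := tau_odd hm11 hm
    have e2 := tau_even (m := m - 1) (by omega) (by omega)
    have e3 := dg_big (m := m) (by omega)
    have e4 : dg 1 = 0 := rfl
    have e5 : tau 1 = 0 := rfl
    have e6 := dg_big (m := m - 4) (by omega)
    have e7 : tau (m - 4) ≤ m - 9 := by
      rcases tau_cases (m - 4) with h | h | h | h <;> omega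
    have e8 : dg m + dS Y = m - 7 := by omega
    have e9 : tS Y ≤ m - 9 := by
      rcases hinv with h | h <;> omega
    exact win_three m 1 (m - 4) _ (by omega) (PA_N (by omega) (max_le (by omega) (by omega))
      (by omega) (by omega) (by omega))

/-- non-T, odd, odd -/
lemma win_pos_C (M : ℕ) (R : Multiset ℕ) (hMt : tS R ≤ tau M)
    (hinv : tS R = 0 ∨ (tS R % 2 = 1 ∧ 3 ≤ tS R ∧ tS R + 1 ≤ 2 * dS R))
    (hMc : (M = 8 ∧ tau M = 3 ∧ dg M = 2) ∨ (M = 9 ∧ tau M = 3 ∧ dg M = 2) ∨
      (M = 11 ∧ tau M = 3 ∧ dg M = 3) ∨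
      (10 ≤ M ∧ M % 2 = 0 ∧ tau M = M - 5 ∧ dg M = M / 2 - 2) ∨
      (13 ≤ M ∧ M % 2 = 1 ∧ tau M = M - 8 ∧ dg M = M / 2 - 2))
    (hd : tau M ≤ dg M + dS R) (he : (M + R.sum) % 2 = 1) (hodd : (dg M + dS R) % 2 = 1) :
    Win (M ::ₘ R) := by
  have hM8 : 8 ≤ M := by omega
  have hdM : dg M = M / 2 - 2 := dg_big (by omega)
  have hd3 : 3 ≤ dg M + dS R := by omega
  have ht3 : dg M + dS R = tau M → tS R + 1 ≤ tau M := by
    intro heq
    rcases hinv with h | h
    · omega
    · rcases hMc with h' | h' | h' | h' | h' <;> omega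
  by_cases hMo : M % 2 = 0
  · have e1 := dg_cases (M - 1)
    have e2 : dg (M - 1) + 1 = dg M := by
      rw [dg_big (m := M - 1) (by omega)]; omega
    have e3 : tau (M - 1) + 1 ≤ tau M := by
      rw [tau_even hM8 hMo]
      rcases tau_cases (M - 1) with h | h | h | h <;> omega
    by_cases hdt : tau M < dg M + dS R
    · exact win_one _ _ (by omega) (PA_N (by omega) (by omega) (by omega) (by omega) (by omega))
    · have := ht3 (by omega)
      exact win_one _ _ (by omega) (PA_N (by omega) (by omega) (by omega) (by omega) (by omega))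
  · have e2 : dg (M - 3) + 1 = dg M := by
      rw [dg_big (m := M - 3) (by omega)]; omega
    have e4 : dg (M - 1) = dg M := by
      rw [dg_big (m := M - 1) (by omega)]; omega
    by_cases hdt : tau M < dg M + dS R
    · have e3 : tau (M - 3) ≤ tau M := by
        rcases tau_cases M with h | h | h | h
        · omega
        · omega
        · obtain ⟨rfl, _⟩ := h; decide
        · rw [tau_even (m := M - 3) (by omega) (by omega)]; omega
      exact win_three' _ _ (by omega) (PA_N (by omega) (by omega) (by omega) (by omega) (by omega))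
    · have := ht3 (by omega)
      by_cases h9 : M = 9
      · subst h9
        have e5 : tau (9 - 3) = 0 := rfl
        exact win_three' _ _ (by omega) (PA_N (by omega) (by omega) (by omega) (by omega) (by omega))
      · have e5 : tau (M - 1) = M - 6 := by
          rw [tau_even (m := M - 1) (by omega) (by omega)]; omega
        have e6 : tau M = M - 8 := tau_odd (by omega) (by omega)
        exact win_one _ _ (by omega) (PA_T (Or.inl (by omega)) (by omega) (by omega))

/-- T, even, even -/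
lemma win_pos_D (M : ℕ) (R : Multiset ℕ) (hMt : tS R ≤ tau M)
    (hinv : tS R = 0 ∨ (tS R % 2 = 1 ∧ 3 ≤ tS R ∧ tS R + 1 ≤ 2 * dS R))
    (hMc : (M = 8 ∧ tau M = 3 ∧ dg M = 2) ∨ (M = 9 ∧ tau M = 3 ∧ dg M = 2) ∨
      (M = 11 ∧ tau M = 3 ∧ dg M = 3) ∨
      (10 ≤ M ∧ M % 2 = 0 ∧ tau M = M - 5 ∧ dg M = M / 2 - 2) ∨
      (13 ≤ M ∧ M % 2 = 1 ∧ tau M = M - 8 ∧ dg M = M / 2 - 2))
    (hd : dg M + dS R < tau M) (he : (M + R.sum) % 2 = 0) (heven : (dg M + dS R) % 2 = 0) :
    Win (M ::ₘ R) := by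
  have hM8 : 8 ≤ M := by omega
  have hdM : dg M = M / 2 - 2 := dg_big (by omega)
  by_cases hdt : dg M + dS R + 3 ≤ tau M
  · have hdM2 : dg (M - 2) + 1 = dg M := by
      rw [dg_big (m := M - 2) (by omega)]; omega
    have ht2 : dg (M - 2) + dS R < tau (M - 2) := by
      rcases hMc with h | h | h | h | h
      · omega
      · omega
      · omega
      · rw [tau_even (m := M - 2) (by omega) (by omega)]; omega
      · rw [tau_odd (m := M - 2) (by omega) (by omega)]; omega
    exact win_two _ _ (by omega) (PA_T (Or.inl ht2) (by omega) (by omega))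
  · by_cases hs : dS R = 0
    · have ht0 : tS R = 0 := by omega
      have hMv : M = 8 ∨ M = 9 ∨ M = 13 := by
        rcases hMc with h | h | h | h | h <;> omega
      have e1 : dg 1 = 0 := rfl
      have e2 : tau 1 = 0 := rfl
      have e3 : dg 4 = 0 := rfl
      have e4 : tau 4 = 0 := rfl
      have e5 : dg 5 = 0 := rfl
      have e6 : tau 5 = 0 := rfl
      rcases hMv with rfl | rfl | rfl
      · exact win_three 8 1 4 _ (by omega) (PA_O (by omega) (max_le (by omega) (by omega)) (by omega)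
          (by omega))
      · exact win_three 9 1 5 _ (by omega) (PA_O (by omega) (max_le (by omega) (by omega)) (by omega)
          (by omega))
      · exact win_three 13 5 5 _ (by omega) (PA_O (by omega) (max_le (by omega) (by omega)) (by omega)
          (by omega))
    · obtain ⟨m, Y, rfl, hm⟩ := ex_dg R (by omega)
      rw [Multiset.cons_swap]
      rw [dS_cons] at *
      rw [Multiset.sum_cons] at *
      rw [tS_cons] at *
      have hm2 : 2 ≤ m := by
        rcases dg_cases m with h' | h' <;> omega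
      have hdm : dg (m - 2) + 1 = dg m ∧ m ≠ 4 ∧ m ≠ 5 := by
        rcases dg_cases m with h' | h' <;> rcases dg_cases (m - 2) with h1' | h1' <;> omega
      refine win_two _ _ hm2 ?_
      rw [dS_cons, Multiset.sum_cons, tS_cons]
      refine PA_T (Or.inr ?_) ?_ ?_
      · apply lt_max_of_lt_left
        omega
      · omega
      · omega

/-- T, odd, even degree -/
lemma win_pos_E (M : ℕ) (R : Multiset ℕ) (hMt : tS R ≤ tau M)
    (hinv : tS R = 0 ∨ (tS R % 2 = 1 ∧ 3 ≤ tS R ∧ tS R + 1 ≤ 2 * dS R))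
    (hMc : (M = 8 ∧ tau M = 3 ∧ dg M = 2) ∨ (M = 9 ∧ tau M = 3 ∧ dg M = 2) ∨
      (M = 11 ∧ tau M = 3 ∧ dg M = 3) ∨
      (10 ≤ M ∧ M % 2 = 0 ∧ tau M = M - 5 ∧ dg M = M / 2 - 2) ∨
      (13 ≤ M ∧ M % 2 = 1 ∧ tau M = M - 8 ∧ dg M = M / 2 - 2))
    (hd : dg M + dS R < tau M) (he : (M + R.sum) % 2 = 1) (heven : (dg M + dS R) % 2 = 0) :
    Win (M ::ₘ R) := by
  have hM8 : 8 ≤ M := by omega
  have hdM : dg M = M / 2 - 2 := dg_big (by omega)
  have e1 : dg 2 = 1 := rfl
  have e2 : tau 2 = 0 := rfl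
  have e3 : dg 3 = 1 := rfl
  have e4 : tau 3 = 0 := rfl
  have e5 : dg 7 = 1 := rfl
  have e6 : tau 7 = 0 := rfl
  by_cases hMo : M % 2 = 0
  · by_cases hs : dS R = 0
    · have ht0 : tS R = 0 := by omega
      by_cases h8 : M = 8
      · subst h8
        exact win_three 8 2 3 _ (by omega) (PA_N (by omega) (max_le (by omega) (by omega)) (by omega)
          (by omega) (by omega))
      · by_cases h12 : M = 12
        · subst h12
          exact win_three 12 2 7 _ (by omega) (PA_N (by omega) (max_le (by omega) (by omega))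
            (by omega) (by omega) (by omega))
        · have h16 : 16 ≤ M := by
            rcases hMc with h | h | h | h | h <;> omega
          have hdM2 : dg (M - 1) + 1 = dg M := by
            rw [dg_big (m := M - 1) (by omega)]; omega
          have ht1 : tau (M - 1) = M - 9 := by
            rw [tau_odd (m := M - 1) (by omega) (by omega)]; omega
          exact win_one _ _ (by omega) (PA_T (Or.inl (by omega)) (by omega) (by omega))
    · obtain ⟨m, Y, rfl, hm⟩ := ex_dg R (by omega)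
      rw [Multiset.cons_swap]
      rw [dS_cons] at *
      rw [Multiset.sum_cons] at *
      rw [tS_cons] at *
      have hm2 : 2 ≤ m := by
        rcases dg_cases m with h' | h' <;> omega
      by_cases hmo : m % 2 = 0
      · have hdm : dg (m - 1) + 1 = dg m := by
          rcases dg_cases m with h' | h' <;> rcases dg_cases (m - 1) with h1' | h1' <;> omega
        refine win_one _ _ (by omega) ?_
        rw [dS_cons, Multiset.sum_cons, tS_cons]
        refine PA_T (Or.inr (lt_max_of_lt_left ?_)) ?_ ?_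
        · omega
        · omega
        · omega
      · have hdm : dg (m - 3) + 1 = dg m := by
          rcases dg_cases m with h' | h' <;> rcases dg_cases (m - 3) with h1' | h1' <;> omega
        refine win_three' _ _ (by omega) ?_
        rw [dS_cons, Multiset.sum_cons, tS_cons]
        refine PA_T (Or.inr (lt_max_of_lt_left ?_)) ?_ ?_
        · omega
        · omega
        · omega
  · by_cases h9 : M = 9
    · subst h9
      have ht0 : tS R = 0 := by omega
      exact win_three 9 3 3 _ (by omega) (PA_N (by omega) (max_le (by omega) (by omega)) (by omega)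
          (by omega) (by omega))
    · have hdM2 : dg (M - 3) + 1 = dg M := by
        rw [dg_big (m := M - 3) (by omega)]; omega
      have h13 : 13 ≤ M := by
        rcases hMc with h | h | h | h | h <;> omega
      have ht1 : tau (M - 3) = M - 8 := by
        rw [tau_even (m := M - 3) (by omega) (by omega)]; omega
      have ht2 : tau M = M - 8 := tau_odd (by omega) (by omega)
      exact win_three' _ _ (by omega) (PA_T (Or.inl (by omega)) (by omega) (by omega))

/-- T, odd, odd degree -/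
lemma win_pos_F (M : ℕ) (R : Multiset ℕ) (hMt : tS R ≤ tau M)
    (hMc : (M = 8 ∧ tau M = 3 ∧ dg M = 2) ∨ (M = 9 ∧ tau M = 3 ∧ dg M = 2) ∨
      (M = 11 ∧ tau M = 3 ∧ dg M = 3) ∨
      (10 ≤ M ∧ M % 2 = 0 ∧ tau M = M - 5 ∧ dg M = M / 2 - 2) ∨
      (13 ≤ M ∧ M % 2 = 1 ∧ tau M = M - 8 ∧ dg M = M / 2 - 2))
    (hd : dg M + dS R < tau M) (he : (M + R.sum) % 2 = 1) (hodd : (dg M + dS R) % 2 = 1) :
    Win (M ::ₘ R) := by
  have hM8 : 8 ≤ M := by omega
  have hdM : dg M = M / 2 - 2 := dg_big (by omega)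
  by_cases hMo : M % 2 = 0
  · obtain ⟨m, Y, rfl, hm⟩ := ex_odd R (by omega)
    rw [Multiset.cons_swap]
    rw [dS_cons] at *
    rw [Multiset.sum_cons] at *
    rw [tS_cons] at *
    have hdm : dg (m - 1) = dg m := by
      rcases dg_cases m with h' | h' <;> rcases dg_cases (m - 1) with h1' | h1' <;> omega
    refine win_one _ _ (by omega) ?_
    rw [dS_cons, Multiset.sum_cons, tS_cons]
    refine PA_T (Or.inr (lt_max_of_lt_left ?_)) ?_ ?_
    · omega
    · omega
    · omega
  · have h13 : 13 ≤ M := by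
      rcases hMc with h | h | h | h | h <;> omega
    have hdM2 : dg (M - 1) = dg M := by
      rw [dg_big (m := M - 1) (by omega)]; omega
    have ht1 : tau (M - 1) = M - 6 := by
      rw [tau_even (m := M - 1) (by omega) (by omega)]; omega
    have ht2 : tau M = M - 8 := tau_odd (by omega) (by omega)
    exact win_one _ _ (by omega) (PA_T (Or.inl (by omega)) (by omega) (by omega))

/-- positive threshold -/
lemma win_tau_pos (X : Multiset ℕ) (ht : 0 < tS X) (hP : ¬ PP X) : Win X := by
  obtain ⟨M, R, rfl, hM⟩ := ex_tau X ht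
  have hinv := tS_inv R
  have hMt : tS R ≤ tau M := by
    rw [hM, tS_cons]
    exact le_max_right _ _
  have hmax : max (tau M) (tS R) = tau M := max_eq_left hMt
  unfold PP PA at hP
  rw [tS_cons, hmax] at hP ht
  rw [Multiset.sum_cons, dS_cons] at hP
  -- description of M
  have hMc : (M = 8 ∧ tau M = 3 ∧ dg M = 2) ∨ (M = 9 ∧ tau M = 3 ∧ dg M = 2) ∨
      (M = 11 ∧ tau M = 3 ∧ dg M = 3) ∨
      (10 ≤ M ∧ M % 2 = 0 ∧ tau M = M - 5 ∧ dg M = M / 2 - 2) ∨
      (13 ≤ M ∧ M % 2 = 1 ∧ tau M = M - 8 ∧ dg M = M / 2 - 2) := by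
    clear hP
    rcases tau_cases M with h | h | h | h <;> rcases dg_cases M with h' | h' <;> omega
  have hdM2 : 2 ≤ dg M := by omega
  by_cases hd : tau M ≤ dg M + dS R
  · by_cases he : (M + R.sum) % 2 = 0
    · have hodd : (dg M + dS R) % 2 = 1 := by
        by_contra hcon
        exact hP (Or.inr (Or.inl ⟨hd, he, by omega, by omega⟩))
      exact win_pos_A M R hMt hinv hMc hd he hodd
    · by_cases hde : (dg M + dS R) % 2 = 0
      · obtain ⟨m, Y, hX, hm⟩ := ex_odd (M ::ₘ R) (by rw [Multiset.sum_cons]; omega)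
        have hs : M + R.sum = m + Y.sum := by
          rw [← Multiset.sum_cons, hX, Multiset.sum_cons]
        have hds : dg M + dS R = dg m + dS Y := by
          rw [← dS_cons, hX, dS_cons]
        have hts : tau M = max (tau m) (tS Y) := by
          rw [← hmax, ← tS_cons, hX, tS_cons]
        rw [hX]
        exact win_pos_B m Y hm (tS_inv Y) (by rw [← hts, ← hds]; exact hd) (by omega) (by omega)
          (by omega)
      · exact win_pos_C M R hMt hinv hMc hd (by omega) (by omega)
  · by_cases he : (M + R.sum) % 2 = 0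
    · have heven : (dg M + dS R) % 2 = 0 := by
        by_contra hcon
        exact hP (Or.inl ⟨by omega, he, by omega⟩)
      exact win_pos_D M R hMt hinv hMc (by omega) he heven
    · by_cases hde : (dg M + dS R) % 2 = 0
      · exact win_pos_E M R hMt hinv hMc (by omega) (by omega) hde
      · exact win_pos_F M R hMt hMc (by omega) (by omega) (by omega)

/-- every nonterminal non-P-position has a winning option -/
theorem win_of_not_PP (X : Multiset ℕ) (hpos : 0 < X.sum) (hP : ¬ PP X) : Win X := by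
  by_cases h : tS X = 0
  · exact win_tau_zero X h hpos hP
  · exact win_tau_pos X (by omega) hP


section line

variable {V : Type*} [Finite V]

/-- runs -/
def UU (R : List (ℤ × ℕ)) : Set ℤ := {x | ∃ r ∈ R, r.1 ≤ x ∧ x < r.1 + r.2}

/-- two runs are far apart -/
def Far (r r' : ℤ × ℕ) : Prop :=
  ∀ x y : ℤ, r.1 ≤ x → x < r.1 + r.2 → r'.1 ≤ y → y < r'.1 + r'.2 → 4 ≤ |x - y|

lemma Far.symm {r r' : ℤ × ℕ} (h : Far r r') : Far r' r := by
  intro x y h1 h2 h3 h4
  rw [abs_sub_comm]
  exact h y x h3 h4 h1 h2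

/-- heap sizes -/
def lens (R : List (ℤ × ℕ)) : Multiset ℕ := ((R.map Prod.snd : List ℕ) : Multiset ℕ)

/-- left piece after a move at `j` -/
def lft (s : ℤ) (m : ℕ) (j : ℤ) : ℕ := (min (j - 1) (s + m) - s).toNat

/-- right piece after a move at `j` -/
def rgt (s : ℤ) (m : ℕ) (j : ℤ) : ℕ := (s + m - max (j + 2) s).toNat

/-- the new list of runs -/
def cut (r : ℤ × ℕ) (j : ℤ) (R0 : List (ℤ × ℕ)) : List (ℤ × ℕ) :=
  (r.1, lft r.1 r.2 j) :: (max (j + 2) r.1, rgt r.1 r.2 j) :: R0

lemma opt_of_move (s : ℤ) (m : ℕ) (j x : ℤ) (h1 : s ≤ x) (h2 : x < s + m) (h3 : |x - j| ≤ 1) :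
    Opt m (lft s m j) (rgt s m j) := by
  rw [abs_le] at h3
  unfold Opt lft rgt
  omega

lemma realize (s : ℤ) (m a b : ℕ) (hopt : Opt m a b) (A B z : ℤ) (hA : A ≤ s) (hB : s + m ≤ B + 1)
    (hz : A ≤ z ∧ z ≤ B) (hz' : ¬ (s ≤ z ∧ z < s + m)) :
    ∃ j x, A ≤ j ∧ j ≤ B ∧ s ≤ x ∧ x < s + m ∧ |x - j| ≤ 1 ∧
      ((lft s m j = a ∧ rgt s m j = b) ∨ (lft s m j = b ∧ rgt s m j = a)) := by
  unfold Opt at hopt
  rcases hopt with ⟨h1, h2, h3⟩ | ⟨h1, h2, h3⟩ | ⟨h1, h2⟩
  · by_cases hzs : z < s
    · refine ⟨s - 1, s, by omega, by omega, by omega, by omega, by rw [abs_le]; omega, ?_⟩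
      unfold lft rgt
      omega
    · refine ⟨s + m, s + m - 1, by omega, by omega, by omega, by omega, by rw [abs_le]; omega, ?_⟩
      unfold lft rgt
      omega
  · refine ⟨s, s, by omega, by omega, by omega, by omega, by rw [abs_le]; omega, ?_⟩
    unfold lft rgt
    omega
  · refine ⟨s + a + 1, s + a + 1, by omega, by omega, by omega, by omega, by rw [abs_le]; omega, ?_⟩
    unfold lft rgt
    omega

lemma mem_cut_iff (r : ℤ × ℕ) (j x : ℤ) :
    ((r.1 ≤ x ∧ x < r.1 + (lft r.1 r.2 j : ℕ)) ∨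
      (max (j + 2) r.1 ≤ x ∧ x < max (j + 2) r.1 + (rgt r.1 r.2 j : ℕ))) ↔
    ((r.1 ≤ x ∧ x < r.1 + r.2) ∧ ¬ |x - j| ≤ 1) := by
  rw [abs_le]
  unfold lft rgt
  omega

lemma UU_cons (r : ℤ × ℕ) (R : List (ℤ × ℕ)) (x : ℤ) :
    x ∈ UU (r :: R) ↔ (r.1 ≤ x ∧ x < r.1 + r.2) ∨ x ∈ UU R := by
  simp [UU]

lemma UU_perm {R R' : List (ℤ × ℕ)} (h : R.Perm R') : UU R = UU R' := by
  ext x
  simp only [UU, Set.mem_ofPred_eq]
  constructor
  · rintro ⟨r, hr, h'⟩
    exact ⟨r, h.mem_iff.1 hr, h'⟩
  · rintro ⟨r, hr, h'⟩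
    exact ⟨r, h.mem_iff.2 hr, h'⟩

lemma far_pairwise_perm {R R' : List (ℤ × ℕ)} (h : R.Perm R') (hR : R.Pairwise Far) :
    R'.Pairwise Far :=
  (h.pairwise_iff (fun h => Far.symm h)).1 hR

lemma UU_cut (r : ℤ × ℕ) (R0 : List (ℤ × ℕ)) (j x0 : ℤ) (hx0 : r.1 ≤ x0 ∧ x0 < r.1 + r.2)
    (hj : |x0 - j| ≤ 1) (hfar : (r :: R0).Pairwise Far) (x : ℤ) :
    x ∈ UU (cut r j R0) ↔ (x ∈ UU (r :: R0) ∧ ¬ |x - j| ≤ 1) := by
  unfold cut
  rw [UU_cons, UU_cons, ← or_assoc]
  have := mem_cut_iff r j x
  simp only at this ⊢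
  rw [this, UU_cons]
  constructor
  · rintro (⟨h1, h2⟩ | h)
    · exact ⟨Or.inl h1, h2⟩
    · refine ⟨Or.inr h, ?_⟩
      obtain ⟨r', hr', h1, h2⟩ := h
      have hf := (List.pairwise_cons.1 hfar).1 r' hr' x0 x hx0.1 hx0.2 h1 h2
      rw [abs_le] at hj ⊢
      rw [le_abs] at hf
      omega
  · rintro ⟨h1 | h1, h2⟩
    · exact Or.inl ⟨h1, h2⟩
    · exact Or.inr h1

lemma cut_pairwise (r : ℤ × ℕ) (R0 : List (ℤ × ℕ)) (j : ℤ) (hfar : (r :: R0).Pairwise Far) :
    (cut r j R0).Pairwise Far := by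
  unfold cut
  rw [List.pairwise_cons] at hfar
  obtain ⟨h1, h2⟩ := hfar
  have hsub := mem_cut_iff r j
  rw [List.pairwise_cons, List.pairwise_cons]
  refine ⟨?_, ?_, h2⟩
  · intro r' hr'
    rw [List.mem_cons] at hr'
    rcases hr' with rfl | hr'
    · intro x y hx1 hx2 hy1 hy2
      simp only at hx1 hx2 hy1 hy2
      unfold lft at hx2
      rw [le_abs]
      omega
    · intro x y hx1 hx2 hy1 hy2
      have := (hsub x).1 (Or.inl ⟨hx1, hx2⟩)
      exact h1 r' hr' x y this.1.1 this.1.2 hy1 hy2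
  · intro r' hr' x y hx1 hx2 hy1 hy2
    have := (hsub x).1 (Or.inr ⟨hx1, hx2⟩)
    exact h1 r' hr' x y this.1.1 this.1.2 hy1 hy2

lemma lens_cut (r : ℤ × ℕ) (R0 : List (ℤ × ℕ)) (j : ℤ) :
    lens (cut r j R0) = lft r.1 r.2 j ::ₘ rgt r.1 r.2 j ::ₘ lens R0 := by
  simp [lens, cut]

lemma lens_cons (r : ℤ × ℕ) (R0 : List (ℤ × ℕ)) : lens (r :: R0) = r.2 ::ₘ lens R0 := by
  simp [lens]

lemma lens_perm {R R' : List (ℤ × ℕ)} (h : R.Perm R') : lens R = lens R' := by
  unfold lens
  exact Multiset.coe_eq_coe.2 (h.map _)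

lemma not_PP_of_sum_zero (X : Multiset ℕ) (h : X.sum = 0) : ¬ PP X := by
  have h1 : dS X = 0 := by
    induction X using Multiset.induction with
    | empty => rfl
    | cons m X ih =>
      rw [Multiset.sum_cons] at h
      have hm : m = 0 := by omega
      subst hm
      rw [dS_cons, ih (by omega)]
      rfl
  unfold PP PA
  have h2 : tS X = 0 := by
    rcases tS_inv X with h | h <;> omega
  omega

lemma UU_empty_of_sum_zero (R : List (ℤ × ℕ)) (h : (lens R).sum = 0) (x : ℤ) : x ∉ UU R := by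
  induction R with
  | nil => simp [UU]
  | cons r R ih =>
    rw [lens_cons, Multiset.sum_cons] at h
    rw [UU_cons]
    have := ih (by omega)
    rintro (⟨h1, h2⟩ | h1)
    · omega
    · exact this h1

lemma exists_of_sum_pos (R : List (ℤ × ℕ)) (h : 0 < (lens R).sum) : ∃ x, x ∈ UU R := by
  induction R with
  | nil => simp [lens] at h
  | cons r R ih =>
    rw [lens_cons, Multiset.sum_cons] at h
    by_cases hr : 0 < r.2
    · exact ⟨r.1, (UU_cons _ _ _).2 (Or.inl ⟨le_rfl, by omega⟩)⟩
    · obtain ⟨x, hx⟩ := ih (by omega)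
      exact ⟨x, (UU_cons _ _ _).2 (Or.inr hx)⟩

lemma opt_sum_lt {m a b : ℕ} (h : Opt m a b) : a + b < m := by
  unfold Opt at h
  omega

/-- The main reduction: a position of the graph game that looks like a far-apart union of runs on a
line segment `[A, B]` with at least one dominated vertex is a P-position iff `PP` holds. -/
theorem moverWins_line (G : SimpleGraph V) (φ : ℤ → V) (A B : ℤ) (W : Set ℤ)
    (hW : ∀ x ∈ W, A ≤ x ∧ x ≤ B)
    (h1 : ∀ j, A ≤ j → j ≤ B → ∀ x ∈ W, (φ x ∈ closedNbhd G (φ j) ↔ |x - j| ≤ 1))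
    (h2 : ∀ v, ∀ x ∈ W, φ x ∈ closedNbhd G v → ∃ j, A ≤ j ∧ j ≤ B ∧ v = φ j) :
    ∀ (N : ℕ) (R : List (ℤ × ℕ)) (S : Set V), (lens R).sum ≤ N → R.Pairwise Far → UU R ⊆ W →
      (∃ z, A ≤ z ∧ z ≤ B ∧ z ∉ UU R) → (dominated G S)ᶜ = φ '' UU R →
      (MoverWins G S ↔ ¬ PP (lens R)) := by
  intro N
  induction N with
  | zero =>
    intro R S hN hfar hUW hz hS
    have h0 : (lens R).sum = 0 := by omega
    have hemp : ∀ v, ¬ Legal G S v := by
      intro v hv
      obtain ⟨u, hu, hu'⟩ := Set.not_subset.1 hv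
      have : u ∈ (dominated G S)ᶜ := hu'
      rw [hS] at this
      obtain ⟨x, hx, _⟩ := this
      exact UU_empty_of_sum_zero R h0 x hx
    have hw : MoverWins G S := (moverWins_iff G S).2 (Or.inl hemp)
    simp [hw, not_PP_of_sum_zero _ h0]
  | succ N ih =>
    intro R S hN hfar hUW hz hS
    by_cases hle : (lens R).sum ≤ N
    · exact ih R S hle hfar hUW hz hS
    have hpos : 0 < (lens R).sum := by omega
    -- general step
    have step : ∀ (r : ℤ × ℕ) (R0 : List (ℤ × ℕ)) (j x0 : ℤ), R.Perm (r :: R0) → A ≤ j → j ≤ B →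
        (r.1 ≤ x0 ∧ x0 < r.1 + r.2) → |x0 - j| ≤ 1 →
        Legal G S (φ j) ∧ (MoverWins G (insert (φ j) S) ↔
          ¬ PP (lft r.1 r.2 j ::ₘ rgt r.1 r.2 j ::ₘ lens R0)) := by
      intro r R0 j x0 hperm hjA hjB hx0 hxj
      have hfar' := far_pairwise_perm hperm hfar
      have hUU : UU R = UU (r :: R0) := UU_perm hperm
      have hx0R : x0 ∈ UU R := by
        rw [hUU, UU_cons]; exact Or.inl hx0
      refine ⟨?_, ?_⟩
      · intro hsub
        have hmem : φ x0 ∈ closedNbhd G (φ j) := (h1 j hjA hjB x0 (hUW hx0R)).2 hxj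
        have : φ x0 ∈ (dominated G S)ᶜ := by
          rw [hS]; exact ⟨x0, hx0R, rfl⟩
        exact this (hsub hmem)
      · have hopt := opt_of_move r.1 r.2 j x0 hx0.1 hx0.2 hxj
        have hlt := opt_sum_lt hopt
        rw [← lens_cut]
        apply ih
        · rw [lens_cut, Multiset.sum_cons, Multiset.sum_cons]
          have : (lens R).sum = r.2 + (lens R0).sum := by
            rw [lens_perm hperm, lens_cons, Multiset.sum_cons]
          omega
        · exact cut_pairwise r R0 j hfar'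
        · intro x hx
          have := (UU_cut r R0 j x0 hx0 hxj hfar' x).1 hx
          apply hUW
          rw [hUU]
          exact this.1
        · obtain ⟨z, hzA, hzB, hz⟩ := hz
          refine ⟨z, hzA, hzB, fun hx => hz ?_⟩
          rw [hUU]
          exact ((UU_cut r R0 j x0 hx0 hxj hfar' z).1 hx).1
        · rw [dominated_insert, Set.compl_union, hS]
          ext u
          constructor
          · rintro ⟨hu1, x, hx, rfl⟩
            refine ⟨x, ?_, rfl⟩
            rw [UU_cut r R0 j x0 hx0 hxj hfar' x]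
            refine ⟨by rw [← hUU]; exact hx, fun hxj' => hu1 ?_⟩
            exact (h1 j hjA hjB x (hUW hx)).2 hxj'
          · rintro ⟨x, hx, rfl⟩
            rw [UU_cut r R0 j x0 hx0 hxj hfar' x, ← hUU] at hx
            refine ⟨fun hmem => hx.2 ((h1 j hjA hjB x (hUW hx.1)).1 hmem), x, hx.1, rfl⟩
    rw [moverWins_iff]
    constructor
    · rintro (hno | ⟨v, hv, hvw⟩)
      · exfalso
        obtain ⟨x, hx⟩ := exists_of_sum_pos R hpos
        apply hno (φ x)
        intro hsub
        have : φ x ∈ (dominated G S)ᶜ := by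
          rw [hS]; exact ⟨x, hx, rfl⟩
        exact this (hsub (Or.inl rfl))
      · intro hPP
        obtain ⟨u, hu, hu'⟩ := Set.not_subset.1 hv
        have hu2 : u ∈ (dominated G S)ᶜ := hu'
        rw [hS] at hu2
        obtain ⟨x, hx, rfl⟩ := hu2
        obtain ⟨j, hjA, hjB, rfl⟩ := h2 v x (hUW hx) hu
        have hxj := (h1 j hjA hjB x (hUW hx)).1 hu
        obtain ⟨r, hr, hx1, hx2⟩ := hx
        have hperm := List.perm_cons_erase hr
        obtain ⟨_, hst⟩ := step r (R.erase r) j x hperm hjA hjB ⟨hx1, hx2⟩ hxj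
        have hopt := opt_of_move r.1 r.2 j x hx1 hx2 hxj
        apply hvw
        rw [hst]
        apply not_PP_opt r.2 _ _ _ hopt
        rw [← lens_cons, ← lens_perm hperm]
        exact hPP
    · intro hPP
      right
      obtain ⟨m, a, b, Y, hX, hopt, hPPX⟩ := win_of_not_PP (lens R) hpos hPP
      have hm : m ∈ lens R := by rw [hX]; exact Multiset.mem_cons_self _ _
      have hm' : ∃ r ∈ R, r.2 = m := by
        simpa [lens] using hm
      obtain ⟨r, hr, rfl⟩ := hm'
      have hperm := List.perm_cons_erase hr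
      have hY : Y = lens (R.erase r) := by
        have : r.2 ::ₘ Y = r.2 ::ₘ lens (R.erase r) := by
          rw [← lens_cons, ← lens_perm hperm, hX]
        exact (Multiset.cons_inj_right _).1 this
      obtain ⟨z, hzA, hzB, hz⟩ := hz
      have hrpos : 0 < r.2 := by have := opt_sum_lt hopt; omega
      have hrin : ∀ x, r.1 ≤ x → x < r.1 + r.2 → x ∈ UU R := fun x hx1 hx2 => ⟨r, hr, hx1, hx2⟩
      have hlo := hW _ (hUW (hrin r.1 le_rfl (by omega)))
      have hhi := hW _ (hUW (hrin (r.1 + r.2 - 1) (by omega) (by omega)))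
      obtain ⟨j, x, hjA, hjB, hx1, hx2, hxj, hcase⟩ := realize r.1 r.2 a b hopt A B z hlo.1
        (by omega) ⟨hzA, hzB⟩ (fun h => hz (hrin z h.1 h.2))
      obtain ⟨hleg, hst⟩ := step r (R.erase r) j x hperm hjA hjB ⟨hx1, hx2⟩ hxj
      refine ⟨φ j, hleg, ?_⟩
      rw [hst, not_not, ← hY]
      rcases hcase with ⟨h3, h4⟩ | ⟨h3, h4⟩
      · rw [h3, h4]; exact hPPX
      · rw [h3, h4, Multiset.cons_swap]; exact hPPX

end line

section paths

lemma tau_zero_le (m : ℕ) (h : m < 8) : tau m = 0 := tau_small h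

/-- the embedding of the line into the path -/
def phiP (n : ℕ) (hn : 0 < n) (j : ℤ) : Fin n :=
  if h : 0 ≤ j ∧ j < n then ⟨j.toNat, by omega⟩ else ⟨0, hn⟩

lemma phiP_val (n : ℕ) (hn : 0 < n) (j : ℤ) (h : 0 ≤ j ∧ j < n) : ((phiP n hn j).val : ℤ) = j := by
  unfold phiP
  rw [dif_pos h]
  simp
  omega

lemma path_h1 (n : ℕ) (hn : 0 < n) (j x : ℤ) (hj : 0 ≤ j ∧ j < n) (hx : 0 ≤ x ∧ x < n) :
    phiP n hn x ∈ closedNbhd (SimpleGraph.pathGraph n) (phiP n hn j) ↔ |x - j| ≤ 1 := by
  have e1 := phiP_val n hn j hj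
  have e2 := phiP_val n hn x hx
  simp only [closedNbhd, Set.mem_ofPred_eq, SimpleGraph.pathGraph_adj, Fin.ext_iff]
  rw [abs_le]
  omega

theorem path_main (n : ℕ) (hn : 1 ≤ n) : MoverWins (SimpleGraph.pathGraph n) ∅ ↔
    ∃ v : ℕ, v < n ∧ PP (lft 0 n v ::ₘ rgt 0 n v ::ₘ 0) := by
  have hmove : ∀ v : Fin n, MoverWins (SimpleGraph.pathGraph n) (insert v ∅) ↔
      ¬ PP (lft 0 n v.val ::ₘ rgt 0 n v.val ::ₘ 0) := by
    intro v
    have key := moverWins_line (SimpleGraph.pathGraph n) (phiP n hn) 0 (n - 1) {x | 0 ≤ x ∧ x < n}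
      (by intro x hx; simp only [Set.mem_ofPred_eq] at hx; omega)
      (by intro j h1 h2 x hx; exact path_h1 n hn j x ⟨h1, by omega⟩ hx)
      (by
        intro u x hx hu
        refine ⟨u.val, by omega, by omega, ?_⟩
        rw [Fin.ext_iff]
        have := phiP_val n hn u.val ⟨by omega, by omega⟩
        omega)
      (lens (cut (0, n) v.val [])).sum (cut (0, n) v.val []) (insert v ∅) le_rfl
      (cut_pairwise (0, n) [] v.val (List.pairwise_singleton _ _))
    have hfar : ([((0 : ℤ), n)] : List (ℤ × ℕ)).Pairwise Far := List.pairwise_singleton _ _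
    have hcut : ∀ x : ℤ, x ∈ UU (cut (0, n) v.val []) ↔ ((0 ≤ x ∧ x < n) ∧ ¬ |x - v.val| ≤ 1) := by
      intro x
      rw [UU_cut (0, n) [] v.val v.val ⟨by simp, by simp⟩ (by simp) hfar x]
      rw [UU_cons]
      simp [UU]
    have h3 := key ?_ ?_ ?_
    · rw [h3, lens_cut]
      rfl
    · intro x hx
      exact ((hcut x).1 hx).1
    · refine ⟨v.val, by omega, by omega, ?_⟩
      rw [hcut]
      simp
    · rw [dominated_insert]
      ext u
      simp only [Set.mem_compl_iff, Set.mem_union, Set.mem_image]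
      have hv : v = phiP n hn v.val := by
        rw [Fin.ext_iff]
        have := phiP_val n hn v.val ⟨by omega, by omega⟩
        omega
      have hu : u = phiP n hn u.val := by
        rw [Fin.ext_iff]
        have := phiP_val n hn u.val ⟨by omega, by omega⟩
        omega
      have hdom : u ∉ dominated (SimpleGraph.pathGraph n) ∅ := by simp [dominated]
      constructor
      · intro h
        refine ⟨u.val, ?_, hu.symm⟩
        rw [hcut]
        refine ⟨⟨by omega, by omega⟩, fun hc => h (Or.inl ?_)⟩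
        rw [hu, hv]
        exact (path_h1 n hn v.val u.val ⟨by omega, by omega⟩ ⟨by omega, by omega⟩).2 hc
      · rintro ⟨x, hx, rfl⟩ (hc | hc)
        · rw [hcut] at hx
          rw [hv] at hc
          exact hx.2 ((path_h1 n hn v.val x ⟨by omega, by omega⟩ hx.1).1 hc)
        · exact hdom hc
  rw [moverWins_iff]
  constructor
  · rintro (h | ⟨v, hv, hw⟩)
    · exfalso
      apply h ⟨0, hn⟩
      intro hsub
      have := hsub (Or.inl rfl : (⟨0, hn⟩ : Fin n) ∈ _)
      simp [dominated] at this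
    · refine ⟨v.val, v.2, ?_⟩
      rw [hmove] at hw
      exact not_not.1 hw
  · rintro ⟨v, hv, hP⟩
    right
    refine ⟨⟨v, hv⟩, ?_, ?_⟩
    · intro hsub
      have := hsub (Or.inl rfl : (⟨v, hv⟩ : Fin n) ∈ _)
      simp [dominated] at this
    · rw [hmove]
      exact not_not.2 hP

lemma PP_pair (a b : ℕ) : PP (a ::ₘ b ::ₘ 0) ↔ PA (a + b) (dg a + dg b) (max (tau a) (tau b)) := by
  unfold PP
  simp only [Multiset.sum_cons, Multiset.sum_zero, dS_cons, dS_zero, tS_cons, tS_zero, add_zero]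
  rw [show max (tau b) 0 = tau b from max_eq_left (Nat.zero_le _)]

lemma PP_zero_pair (b : ℕ) : PP (0 ::ₘ b ::ₘ 0) ↔ PP (b ::ₘ 0) := by
  rw [PP_pair]
  unfold PP
  simp only [Multiset.sum_cons, Multiset.sum_zero, dS_cons, dS_zero, tS_cons, tS_zero, add_zero]
  rw [show dg 0 = 0 from rfl, show tau 0 = 0 from rfl, zero_add, zero_add, max_comm 0]

lemma PP_single_of (m : ℕ) : PP (m ::ₘ 0) ↔ (m = 1 ∨ m = 5 ∨ (10 ≤ m ∧ m % 4 = 2)) := by
  unfold PP
  simp only [Multiset.sum_cons, Multiset.sum_zero, dS_cons, dS_zero, tS_cons, tS_zero]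
  unfold PA
  rcases tau_cases m with h | h | h | h <;> rcases dg_cases m with h' | h' <;> omega

theorem path_result (n : ℕ) (hn : 1 ≤ n) : MoverWins (SimpleGraph.pathGraph n) ∅ ↔
    ¬ (n = 1 ∨ n = 2 ∨ n = 5 ∨ n = 6 ∨ (10 ≤ n ∧ n % 4 = 2)) := by
  rw [path_main n hn]
  constructor
  · rintro ⟨v, hv, hP⟩ hcase
    by_cases h26 : n = 2 ∨ n = 6
    · have hpp : ∀ a b : ℕ, (a = 0 ∧ b = 0) ∨ (a = 0 ∧ b = 4) ∨ (a = 4 ∧ b = 0) ∨
          (a = 0 ∧ b = 3) ∨ (a = 3 ∧ b = 0) ∨ (a = 1 ∧ b = 2) ∨ (a = 2 ∧ b = 1) →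
          ¬ PP (a ::ₘ b ::ₘ 0) := by
        intro a b h
        rw [PP_pair]
        rcases h with ⟨rfl, rfl⟩ | ⟨rfl, rfl⟩ | ⟨rfl, rfl⟩ | ⟨rfl, rfl⟩ | ⟨rfl, rfl⟩ | ⟨rfl, rfl⟩ |
          ⟨rfl, rfl⟩ <;> simp [PA, dg, tau]
      apply hpp _ _ _ hP
      unfold lft rgt
      rcases h26 with rfl | rfl <;> omega
    · have hP1 : PP (n ::ₘ 0) := by
        rw [PP_single_of]; omega
      have hopt := opt_of_move 0 n v v (by omega) (by omega) (by simp)
      exact not_PP_opt n _ _ 0 hopt hP1 hP
  · intro hcase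
    -- choose the winning first move
    have main : ∃ a b : ℕ, (a + b + 3 = n ∨ (a = 0 ∧ b + 2 = n)) ∧ PP (a ::ₘ b ::ₘ 0) := by
      by_cases h3 : n = 3
      · exact ⟨0, 1, by omega, by rw [PP_pair]; simp [PA, dg, tau]⟩
      by_cases h4 : n = 4
      · exact ⟨0, 1, by omega, by rw [PP_pair]; simp [PA, dg, tau]⟩
      by_cases h7 : n = 7
      · exact ⟨2, 2, by omega, by rw [PP_pair]; simp [PA, dg, tau]⟩
      by_cases h8 : n = 8
      · exact ⟨0, 5, by omega, by rw [PP_pair]; simp [PA, dg, tau]⟩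
      by_cases h9 : n = 9
      · exact ⟨3, 3, by omega, by rw [PP_pair]; simp [PA, dg, tau]⟩
      by_cases h11 : n = 11
      · exact ⟨2, 6, by omega, by rw [PP_pair]; simp [PA, dg, tau]⟩
      have h12 : 12 ≤ n := by omega
      by_cases hm0 : n % 4 = 0
      · refine ⟨0, n - 2, by omega, ?_⟩
        rw [PP_zero_pair]
        exact (PP_single_of (n - 2)).2 (by omega)
      by_cases hm1 : n % 4 = 1
      · refine ⟨0, n - 3, by omega, ?_⟩
        rw [PP_zero_pair]
        exact (PP_single_of (n - 3)).2 (by omega)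
      · refine ⟨(n - 3) / 2, (n - 3) / 2, by omega, ?_⟩
        rw [PP_pair]
        right; left
        rcases tau_cases ((n-3)/2) with h | h | h | h <;>
          rcases dg_cases ((n-3)/2) with h' | h' <;>
          refine ⟨max_le (by omega) (by omega), by omega, by omega, by omega⟩
    obtain ⟨a, b, hab, hPP⟩ := main
    rcases hab with hab | ⟨rfl, hab⟩
    · refine ⟨a + 1, by omega, ?_⟩
      have e1 : lft 0 n ((a + 1 : ℕ) : ℤ) = a := by unfold lft; omega
      have e2 : rgt 0 n ((a + 1 : ℕ) : ℤ) = b := by unfold rgt; omega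
      rw [e1, e2]; exact hPP
    · refine ⟨0, by omega, ?_⟩
      have e1 : lft 0 n ((0 : ℕ) : ℤ) = 0 := by unfold lft; omega
      have e2 : rgt 0 n ((0 : ℕ) : ℤ) = b := by unfold rgt; omega
      rw [e1, e2]; exact hPP

end paths

section cycles

lemma cyc_adj (n : ℕ) (hn : 3 ≤ n) (u w : Fin n) : (SimpleGraph.cycleGraph n).Adj u w ↔
    (u.val + 1 = w.val ∨ w.val + 1 = u.val ∨ (u.val = 0 ∧ w.val + 1 = n) ∨
      (w.val = 0 ∧ u.val + 1 = n)) := by
  rw [SimpleGraph.cycleGraph_adj']
  have hsub : ∀ a b : Fin n, ((a - b).val = if b.val ≤ a.val then a.val - b.val else n + a.val - b.val) := by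
    intro a b
    rw [Fin.sub_def]
    simp only
    have ha := a.2
    have hb := b.2
    split_ifs with h
    · have : n - b.val + a.val = n + (a.val - b.val) := by omega
      rw [this, Nat.add_mod_left, Nat.mod_eq_of_lt (by omega)]
    · have : n - b.val + a.val = n + a.val - b.val := by omega
      rw [this, Nat.mod_eq_of_lt (by omega)]
  rw [hsub, hsub]
  have hu := u.2
  have hw := w.2
  split_ifs <;> omega

/-- the embedding of the line into the cycle, starting at `v` -/
def phiC (n : ℕ) (v : Fin n) (j : ℤ) : Fin n :=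
  if h : 0 ≤ j ∧ j < n then
    ⟨if v.val + j.toNat < n then v.val + j.toNat else v.val + j.toNat - n, by
      have := v.2
      split_ifs <;> omega⟩
  else v

lemma phiC_val (n : ℕ) (v : Fin n) (j : ℤ) (h : 0 ≤ j ∧ j < n) :
    ((v.val : ℤ) + j < n ∧ ((phiC n v j).val : ℤ) = v.val + j) ∨
      (n ≤ (v.val : ℤ) + j ∧ ((phiC n v j).val : ℤ) = v.val + j - n) := by
  unfold phiC
  rw [dif_pos h]
  have := v.2
  simp only
  split_ifs <;> omega

lemma cyc_nbhd (n : ℕ) (hn : 3 ≤ n) (v : Fin n) (j x : ℤ) (hj : 0 ≤ j ∧ j < n) (hx : 0 ≤ x ∧ x < n) :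
    phiC n v x ∈ closedNbhd (SimpleGraph.cycleGraph n) (phiC n v j) ↔
      (|x - j| ≤ 1 ∨ (x = 0 ∧ j = n - 1) ∨ (j = 0 ∧ x = n - 1)) := by
  have e1 := phiC_val n v j hj
  have e2 := phiC_val n v x hx
  have hv := v.2
  simp only [closedNbhd, Set.mem_ofPred_eq, cyc_adj n hn, Fin.ext_iff]
  rw [abs_le]
  generalize (phiC n v x).val = a at *
  generalize (phiC n v j).val = b at *
  rcases e1 with ⟨h1, h2⟩ | ⟨h1, h2⟩ <;> rcases e2 with ⟨h3, h4⟩ | ⟨h3, h4⟩ <;>
    constructor <;> intro h <;> omega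

lemma phiC_surj (n : ℕ) (hn : 3 ≤ n) (v u : Fin n) : ∃ j : ℤ, 0 ≤ j ∧ j < n ∧ u = phiC n v j := by
  have hv := v.2
  have hu := u.2
  by_cases h : v.val ≤ u.val
  · refine ⟨u.val - v.val, by omega, by omega, ?_⟩
    rw [Fin.ext_iff]
    have := phiC_val n v ((u.val : ℤ) - v.val) ⟨by omega, by omega⟩
    omega
  · refine ⟨u.val - v.val + n, by omega, by omega, ?_⟩
    rw [Fin.ext_iff]
    have := phiC_val n v ((u.val : ℤ) - v.val + n) ⟨by omega, by omega⟩
    omega

lemma phiC_zero (n : ℕ) (v : Fin n) : phiC n v 0 = v := by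
  have hv := v.2
  rw [Fin.ext_iff]
  have := phiC_val n v 0 ⟨le_rfl, by omega⟩
  omega

theorem cycle_move (n : ℕ) (hn : 3 ≤ n) (v : Fin n) :
    MoverWins (SimpleGraph.cycleGraph n) (insert v ∅) ↔ ¬ PP ((n - 3) ::ₘ 0) := by
  have hUU : ∀ x : ℤ, x ∈ UU [((2 : ℤ), n - 3)] ↔ (2 ≤ x ∧ x ≤ n - 2) := by
    intro x
    rw [UU_cons]
    simp only [UU, List.not_mem_nil, false_and, exists_false, Set.ofPred_false,
      Set.mem_empty_iff_false, or_false]
    omega
  have key := moverWins_line (SimpleGraph.cycleGraph n) (phiC n v) 1 (n - 1)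
    {x | 2 ≤ x ∧ x ≤ n - 2}
    (by intro x hx; simp only [Set.mem_ofPred_eq] at hx; omega)
    (by
      intro j h1 h2 x hx
      simp only [Set.mem_ofPred_eq] at hx
      rw [cyc_nbhd n hn v j x ⟨by omega, by omega⟩ ⟨by omega, by omega⟩]
      rw [abs_le]
      omega)
    (by
      intro u x hx hu
      simp only [Set.mem_ofPred_eq] at hx
      obtain ⟨j, hj1, hj2, rfl⟩ := phiC_surj n hn v u
      rw [cyc_nbhd n hn v j x ⟨by omega, by omega⟩ ⟨by omega, by omega⟩, abs_le] at hu
      exact ⟨j, by omega, by omega, rfl⟩)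
    (lens [((2 : ℤ), n - 3)]).sum [((2 : ℤ), n - 3)] (insert v ∅) le_rfl
    (List.pairwise_singleton _ _)
  have h3 := key ?_ ?_ ?_
  · rw [h3]
    rfl
  · intro x hx
    exact (hUU x).1 hx
  · refine ⟨1, le_rfl, by omega, ?_⟩
    rw [hUU]
    omega
  · rw [dominated_insert]
    ext u
    simp only [Set.mem_compl_iff, Set.mem_union, Set.mem_image]
    have hdom : u ∉ dominated (SimpleGraph.cycleGraph n) ∅ := by simp [dominated]
    obtain ⟨j, hj1, hj2, rfl⟩ := phiC_surj n hn v u
    have hnb := cyc_nbhd n hn v 0 j ⟨le_rfl, by omega⟩ ⟨hj1, hj2⟩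
    rw [phiC_zero, abs_le] at hnb
    constructor
    · intro h
      refine ⟨j, ?_, rfl⟩
      rw [hUU]
      have : ¬ (phiC n v j ∈ closedNbhd (SimpleGraph.cycleGraph n) v) := fun hc => h (Or.inl hc)
      rw [hnb] at this
      omega
    · rintro ⟨x, hx, hxj⟩ (hc | hc)
      · rw [hUU] at hx
        have hnb' := cyc_nbhd n hn v 0 x ⟨le_rfl, by omega⟩ ⟨by omega, by omega⟩
        rw [phiC_zero, abs_le] at hnb'
        rw [← hxj, hnb'] at hc
        omega
      · exact hdom hc

theorem cycle_result (n : ℕ) (hn : 3 ≤ n) : MoverWins (SimpleGraph.cycleGraph n) ∅ ↔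
    (n = 4 ∨ n = 8 ∨ (13 ≤ n ∧ n % 4 = 1)) := by
  rw [moverWins_iff]
  have hPP : PP ((n - 3) ::ₘ 0) ↔ (n = 4 ∨ n = 8 ∨ (13 ≤ n ∧ n % 4 = 1)) := by
    rw [PP_single_of]
    omega
  rw [← hPP]
  constructor
  · rintro (h | ⟨v, hv, hw⟩)
    · exfalso
      apply h ⟨0, by omega⟩
      intro hsub
      have := hsub (Or.inl rfl : (⟨0, by omega⟩ : Fin n) ∈ _)
      simp [dominated] at this
    · rw [cycle_move n hn] at hw
      exact not_not.1 hw
  · intro hP
    right
    refine ⟨⟨0, by omega⟩, ?_, ?_⟩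
    · intro hsub
      have := hsub (Or.inl rfl : (⟨0, by omega⟩ : Fin n) ∈ _)
      simp [dominated] at this
    · rw [cycle_move n hn]
      exact not_not.2 hP

end cycles

/-- **Misere domination game on paths and cycles.**  Alice (the player moving first) wins on the path
`P_n` (`n ≥ 1`) exactly when `n ∉ {1, 2, 5, 6}` and it is not the case that `n ≥ 10` and
`n ≡ 2 (mod 4)`; she wins on the cycle `C_n` (`n ≥ 3`) exactly when `n ∈ {4, 8}` or `n ≥ 13` and
`n ≡ 1 (mod 4)`. -/
theorem result :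
    (∀ n : ℕ, 1 ≤ n → (MoverWins (SimpleGraph.pathGraph n) ∅ ↔
      ¬ (n = 1 ∨ n = 2 ∨ n = 5 ∨ n = 6 ∨ (10 ≤ n ∧ n % 4 = 2)))) ∧
    (∀ n : ℕ, 3 ≤ n → (MoverWins (SimpleGraph.cycleGraph n) ∅ ↔
      (n = 4 ∨ n = 8 ∨ (13 ≤ n ∧ n % 4 = 1)))) :=
  ⟨path_result, cycle_result⟩

end Pool.Agent.Results.MP_56c280_lc.PathsCycles
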